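import Mathlib

set_option autoImplicit false

namespace Pool.Agent.Results.MP_32b555_nt.UniqueExtension

/-- `μ` is an upper quasi-density on the set `H` of natural numbers. A function on the power set
of `H` is represented by a function on all sets of natural numbers, all of whose axioms (and all
of whose relevant values) concern subsets of `H` only. -/
structure IsUpperQuasiDensity (H : Set ℕ) (μ : Set ℕ → ℝ) : Prop where
  /-- (F1) -/
  total : μ H = 1
  /-- (F3) -/
  subadd : ∀ X ⊆ H, ∀ Y ⊆ H, μ (X ∪ Y) ≤ μ X + μ Y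
  /-- (F4 flat) -/
  affine : ∀ X ⊆ H, ∀ k h : ℕ, 1 ≤ k → 1 ≤ h →
    μ ((fun x => k * x + h) '' X) = (1 / (k : ℝ)) * μ X
  /-- values are at most one -/
  le_one : ∀ X ⊆ H, μ X ≤ 1

/-- Every upper quasi-density on the positive integers extends to exactly one upper
quasi-density on the natural numbers `0, 1, 2, …`. -/
theorem result (μ : Set ℕ → ℝ) (hμ : IsUpperQuasiDensity {n : ℕ | 1 ≤ n} μ) :
    ∃! ν : Set ℕ → ℝ, IsUpperQuasiDensity Set.univ ν ∧
      ∀ X ⊆ {n : ℕ | 1 ≤ n}, ν X = μ X := by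
  have hsub : ∀ (X : Set ℕ) (k h : ℕ), 1 ≤ h →
      (fun x => k * x + h) '' X ⊆ {n : ℕ | 1 ≤ n} := by
    intro X k h hh n hn
    obtain ⟨x, _, rfl⟩ := hn
    show 1 ≤ k * x + h
    omega
  refine ⟨fun X => μ ((fun x => 1 * x + 1) '' X), ⟨⟨?_, ?_, ?_, ?_⟩, ?_⟩, ?_⟩
  · -- total
    have h1 : (fun x : ℕ => 1 * x + 1) '' Set.univ = {n : ℕ | 1 ≤ n} := by
      ext n
      constructor
      · rintro ⟨x, _, rfl⟩
        show 1 ≤ 1 * x + 1
        omega
      · intro hn
        have hn' : 1 ≤ n := hn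
        exact ⟨n - 1, trivial, by show 1 * (n - 1) + 1 = n; omega⟩
    show μ ((fun x : ℕ => 1 * x + 1) '' Set.univ) = 1
    rw [h1]
    exact hμ.total
  · -- subadd
    intro X _ Y _
    show μ ((fun x : ℕ => 1 * x + 1) '' (X ∪ Y)) ≤ _
    rw [Set.image_union]
    exact hμ.subadd _ (hsub X 1 1 le_rfl) _ (hsub Y 1 1 le_rfl)
  · -- affine
    intro X _ k h hk hh
    show μ ((fun x : ℕ => 1 * x + 1) '' ((fun x => k * x + h) '' X)) =
      (1 / (k : ℝ)) * μ ((fun x : ℕ => 1 * x + 1) '' X)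
    have e1 : (fun x : ℕ => 1 * x + k) '' ((fun x : ℕ => 1 * x + 1) '' ((fun x => k * x + h) '' X))
        = (fun x : ℕ => k * x + (h + 1)) '' ((fun x : ℕ => 1 * x + 1) '' X) := by
      simp only [Set.image_image]
      apply Set.image_congr
      intro x _
      ring
    have e2 := hμ.affine ((fun x : ℕ => 1 * x + 1) '' ((fun x => k * x + h) '' X))
      (hsub _ 1 1 le_rfl) 1 k le_rfl hk
    have e3 := hμ.affine ((fun x : ℕ => 1 * x + 1) '' X) (hsub _ 1 1 le_rfl) k (h + 1) hk (by omega)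
    rw [e1, e3] at e2
    simpa using e2.symm
  · intro X _
    exact hμ.le_one _ (hsub X 1 1 le_rfl)
  · intro X hX
    have := hμ.affine X hX 1 1 le_rfl le_rfl
    simpa using this
  · rintro ν ⟨hν, hext⟩
    funext X
    have h1 := hν.affine X (Set.subset_univ _) 1 1 le_rfl le_rfl
    have h2 := hext _ (hsub X 1 1 le_rfl)
    show ν X = μ ((fun x : ℕ => 1 * x + 1) '' X)
    rw [← h2, h1]
    simp

end Pool.Agent.Results.MP_32b555_nt.UniqueExtension
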